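import Pool.Agent.N804.PV.StmW

/-!
# Project PX (helper804), part 4 (helper680): measurability in the height
-/

set_option autoImplicit false

namespace Pool.Agent.N680.PX4

open Filter Topology Set MeasureTheory
open H370 (Zf mult mem_Zf good_zeta zset NN NN_eq)
open Pool.Agent.N804 Pool.Agent.N804.PV

lemma log_two_le {T : ℝ} (hT : 2 ≤ T) : Real.log 2 ≤ Real.log T :=
  Real.log_le_log (by norm_num) hT

lemma ph_meas : Measurable ph := by
  unfold ph
  have : Continuous Real.sinc := Real.continuous_sinc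
  fun_prop

/-- sums over pairs of zeros with bounded measurable weights are integrable in the height -/
lemma PW_int (M B : ℝ) (hB : 0 ≤ B) (F : ℝ → ℂ → ℂ → ℝ) (hF : ∀ s s', Measurable fun T => F T s s')
    (hFB : ∀ T s s', |F T s s'| ≤ B) : IntegrableOn (fun T => PW T (F T)) (Icc 2 M) := by
  classical
  rcases lt_or_ge M 2 with hM | hM
  · rw [Icc_eq_empty (not_le.2 hM)]
    exact integrableOn_empty
  have hpi := Real.pi_pos
  set Z := Zf riemannZeta 0 (M ^ 2) with hZ
  set H : ℝ → ℝ := fun T => (∑ s ∈ Z, ∑ s' ∈ Z, if s.im ≤ T ^ 2 ∧ s'.im ≤ T ^ 2 then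
    (mult riemannZeta s : ℝ) * (mult riemannZeta s' : ℝ) * ph (max s.im s'.im / T) * F T s s'
      else 0) / (Real.pi * XX T) with hH
  have hXm : Measurable XX := by
    unfold XX
    fun_prop
  have hHm : Measurable H := by
    refine Measurable.div ?_ (hXm.const_mul _)
    refine Finset.measurable_sum _ fun s _ => Finset.measurable_sum _ fun s' _ => ?_
    refine Measurable.ite ?_ ?_ measurable_const
    · have hsq : Measurable fun T : ℝ => T ^ 2 := by fun_prop
      exact (measurableSet_le measurable_const hsq).inter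
        (measurableSet_le measurable_const hsq)
    · refine Measurable.mul ?_ (hF s s')
      exact (ph_meas.comp (measurable_const.div measurable_id)).const_mul _
  have hXX : ∀ T, 2 ≤ T → XX 2 ≤ XX T := by
    intro T hT
    unfold XX
    have h2 := log_two_le hT
    have h3 : 0 < Real.log 2 := Real.log_pos (by norm_num)
    gcongr
  have hX2 : 0 < XX 2 := XX_pos (by norm_num)
  have heq : ∀ T ∈ Icc 2 M, PW T (F T) = H T := by
    intro T hT
    have hf : Zf riemannZeta 0 (T ^ 2) = Z.filter fun s => s.im ≤ T ^ 2 := by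
      ext s
      rw [Finset.mem_filter, hZ, mem_Z le_rfl, mem_Z le_rfl]
      constructor
      · rintro ⟨a1, a2, a3, a4, a5⟩
        have h1 : T ^ 2 ≤ M ^ 2 := pow_le_pow_left₀ (by linarith [hT.1]) hT.2 2
        exact ⟨⟨a1, a2, a3, a4.trans h1, a5⟩, a4⟩
      · rintro ⟨⟨a1, a2, a3, a4, a5⟩, a6⟩
        exact ⟨a1, a2, a3, a6, a5⟩
    unfold PW
    rw [hf, hH]
    simp only
    congr 1
    rw [Finset.sum_filter]
    refine Finset.sum_congr rfl fun s _ => ?_
    by_cases hs : s.im ≤ T ^ 2
    · rw [if_pos hs, Finset.sum_filter]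
      refine Finset.sum_congr rfl fun s' _ => ?_
      by_cases hs' : s'.im ≤ T ^ 2
      · rw [if_pos hs', if_pos ⟨hs, hs'⟩]
      · rw [if_neg hs', if_neg fun h => hs' h.2]
    · rw [if_neg hs]
      symm
      refine Finset.sum_eq_zero fun s' _ => ?_
      rw [if_neg fun h => hs h.1]
  have hI : IntegrableOn H (Icc 2 M) := by
    refine Measure.integrableOn_of_bounded
      (M := (∑ s ∈ Z, ∑ s' ∈ Z, (mult riemannZeta s : ℝ) * (mult riemannZeta s' : ℝ) * B) /
        (Real.pi * XX 2)) (by simp) hHm.aestronglyMeasurable ?_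
    refine (ae_restrict_mem measurableSet_Icc).mono fun T hT => ?_
    have h1 := hXX T hT.1
    have hXT : 0 < Real.pi * XX T := mul_pos hpi (lt_of_lt_of_le hX2 h1)
    rw [hH, Real.norm_eq_abs, abs_div, abs_of_pos hXT]
    have h2 : |∑ s ∈ Z, ∑ s' ∈ Z, if s.im ≤ T ^ 2 ∧ s'.im ≤ T ^ 2 then
        (mult riemannZeta s : ℝ) * (mult riemannZeta s' : ℝ) * ph (max s.im s'.im / T) * F T s s'
          else 0| ≤ ∑ s ∈ Z, ∑ s' ∈ Z, (mult riemannZeta s : ℝ) * (mult riemannZeta s' : ℝ) * B := by
      refine (Finset.abs_sum_le_sum_abs _ _).trans (Finset.sum_le_sum fun s _ => ?_)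
      refine (Finset.abs_sum_le_sum_abs _ _).trans (Finset.sum_le_sum fun s' _ => ?_)
      split_ifs
      · rw [abs_mul, abs_mul, abs_mul, abs_of_nonneg (ph_nonneg _), Nat.abs_cast, Nat.abs_cast]
        have h3 := ph_le_one (max s.im s'.im / T)
        have h4 := ph_nonneg (max s.im s'.im / T)
        have h5 := hFB T s s'
        have h6 : (0 : ℝ) ≤ (mult riemannZeta s : ℝ) * (mult riemannZeta s' : ℝ) := by positivity
        have h7 : ph (max s.im s'.im / T) * |F T s s'| ≤ 1 * B :=
          mul_le_mul h3 h5 (abs_nonneg _) zero_le_one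
        rw [one_mul] at h7
        rw [mul_assoc]
        exact mul_le_mul_of_nonneg_left h7 h6
      · rw [abs_zero]
        positivity
    gcongr
  exact hI.congr_fun (fun T hT => (heq T hT).symm) measurableSet_Icc

lemma DT_bd' {T : ℝ} (hT : 1 < T) (A : ℝ) (y : ℝ) (hy : |y| ≤ A) :
    |DT T y| ≤ Real.exp (A / 2) * (Chebyshev.psi (Real.exp A * 2) + Chebyshev.psi (Real.exp A) +
      Real.exp A) := by
  obtain ⟨h1, h2⟩ := abs_le.1 hy
  unfold DT
  rw [abs_mul, abs_of_pos (Real.exp_pos _)]
  have e1 : Real.exp (-(y / 2)) ≤ Real.exp (A / 2) := Real.exp_le_exp.2 (by linarith)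
  have e2 : Real.exp y ≤ Real.exp A := Real.exp_le_exp.2 h2
  have hp := Real.exp_pos y
  have hA := Real.exp_pos A
  have hT1 : 1 / T ≤ 1 := by rw [div_le_one (by linarith)]; linarith
  have hT0 : 0 < 1 / T := by positivity
  have p1 : Chebyshev.psi (Real.exp y * (1 + 1 / T)) ≤ Chebyshev.psi (Real.exp A * 2) :=
    Chebyshev.psi_mono (by nlinarith)
  have p2 : Chebyshev.psi (Real.exp y) ≤ Chebyshev.psi (Real.exp A) := Chebyshev.psi_mono e2
  have q1 := Chebyshev.psi_nonneg (Real.exp y * (1 + 1 / T))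
  have q2 := Chebyshev.psi_nonneg (Real.exp y)
  have r1 : Real.exp y / T ≤ Real.exp A := by
    rw [div_le_iff₀ (by linarith)]
    nlinarith
  have r2 : 0 ≤ Real.exp y / T := by positivity
  have h3 : |Chebyshev.psi (Real.exp y * (1 + 1 / T)) - Chebyshev.psi (Real.exp y) -
      Real.exp y / T| ≤ Chebyshev.psi (Real.exp A * 2) + Chebyshev.psi (Real.exp A) +
        Real.exp A := by
    rw [abs_le]
    constructor <;> linarith
  gcongr

lemma uT_meas2 : Measurable fun p : ℝ × ℝ => uT p.1 p.2 := by
  have hm : Measurable Chebyshev.psi := Chebyshev.psi_mono.measurable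
  unfold uT DT
  have hy : Measurable fun p : ℝ × ℝ => p.2 * Real.log p.1 := by fun_prop
  have h1 : Measurable fun p : ℝ × ℝ =>
      Chebyshev.psi (Real.exp (p.2 * Real.log p.1) * (1 + 1 / p.1)) :=
    hm.comp ((Real.measurable_exp.comp hy).mul (by fun_prop))
  have h2 : Measurable fun p : ℝ × ℝ => Chebyshev.psi (Real.exp (p.2 * Real.log p.1)) :=
    hm.comp (Real.measurable_exp.comp hy)
  have h3 : Measurable fun p : ℝ × ℝ => Real.exp (p.2 * Real.log p.1) / p.1 := by fun_prop
  have h4 : Measurable fun p : ℝ × ℝ => Real.exp (-(p.2 * Real.log p.1 / 2)) := by fun_prop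
  have h5 : Measurable fun p : ℝ × ℝ => p.1 / Real.log p.1 := by fun_prop
  exact h5.mul ((h4.mul ((h1.sub h2).sub h3)).pow_const 2)

lemma third {r : ℝ → ℝ} (hr : SC r) (M : ℝ) :
    IntegrableOn (fun T => ∫ α : ℝ, r α * uT T α) (Icc 2 M) := by
  rcases lt_or_ge M 2 with hM | hM
  · rw [Icc_eq_empty (not_le.2 hM)]
    exact integrableOn_empty
  have hc := hr.cont
  have hri : Integrable r := hc.integrable_of_hasCompactSupport hr.cs
  obtain ⟨R, hR⟩ := hr.cs.isCompact.isBounded.subset_closedBall 0
  set K : ℝ := max R 1 with hK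
  have hK0 : 0 ≤ K := le_trans zero_le_one (le_max_right _ _)
  have hz : ∀ α, K < |α| → r α = 0 := by
    intro α hα
    by_contra hne
    have h1 := hR (subset_tsupport r hne)
    rw [mem_closedBall_zero_iff, Real.norm_eq_abs] at h1
    have := le_max_left R 1
    linarith
  set A : ℝ := K * Real.log M with hA
  set C : ℝ := Real.exp (A / 2) * (Chebyshev.psi (Real.exp A * 2) + Chebyshev.psi (Real.exp A) +
      Real.exp A) with hC
  have hmeas : StronglyMeasurable fun T : ℝ => ∫ α : ℝ, r α * uT T α := by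
    have h1 : Measurable fun p : ℝ × ℝ => r p.2 * uT p.1 p.2 :=
      (hc.measurable.comp measurable_snd).mul uT_meas2
    exact h1.stronglyMeasurable.integral_prod_right
  have h2l : 0 < Real.log 2 := Real.log_pos (by norm_num)
  refine Measure.integrableOn_of_bounded (M := M / Real.log 2 * C ^ 2 * ∫ α, |r α|) (by simp)
    hmeas.aestronglyMeasurable ?_
  refine (ae_restrict_mem measurableSet_Icc).mono fun T hT => ?_
  have hT2 := hT.1
  have hTM := hT.2
  have hlT := log_two_le hT2
  have hlM : Real.log T ≤ Real.log M := Real.log_le_log (by linarith) hTM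
  rw [← integral_const_mul]
  refine (norm_integral_le_integral_norm _).trans ?_
  refine integral_mono_of_nonneg (ae_of_all _ fun α => norm_nonneg _)
    ((hri.abs).const_mul _) (ae_of_all _ fun α => ?_)
  simp only
  rw [norm_mul, Real.norm_eq_abs, Real.norm_of_nonneg (uT_nonneg (by linarith) α)]
  by_cases hα : K < |α|
  · rw [hz α hα]
    simp
  · have h3 : |α * Real.log T| ≤ A := by
      rw [abs_mul, abs_of_pos (by linarith : 0 < Real.log T), hA]
      exact mul_le_mul (not_lt.1 hα) hlM (by linarith) hK0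
    have h4 := DT_bd' (by linarith : 1 < T) A _ h3
    have h5 : uT T α ≤ M / Real.log 2 * C ^ 2 := by
      unfold uT
      have h6 : DT T (α * Real.log T) ^ 2 ≤ C ^ 2 := by
        rw [← sq_abs]
        exact pow_le_pow_left₀ (abs_nonneg _) h4 2
      have h7 : T / Real.log T ≤ M / Real.log 2 := by gcongr
      have h8 : 0 ≤ T / Real.log T := div_nonneg (by linarith) (by linarith)
      exact mul_le_mul h7 h6 (sq_nonneg _) (h8.trans h7)
    rw [mul_comm]
    exact mul_le_mul_of_nonneg_right h5 (abs_nonneg _)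

theorem main : Pool.Agent.N804.PV.S_W4 := by
  classical
  intro r hr M
  refine ⟨?_, ?_, third hr M⟩
  · obtain ⟨B, hB⟩ := CT_bd hr
    have hB0 : 0 ≤ B := (abs_nonneg _).trans (hB 0)
    refine PW_int M B hB0 (fun T s s' => sc r T (s.im - s'.im)) ?_ ?_
    · intro s s'
      unfold sc
      exact (CT_cont hr).measurable.comp (by fun_prop)
    · intro T s s'
      exact hB _
  · refine PW_int M 1 zero_le_one (fun _ s s' => if s.im = s'.im then 1 else 0) ?_ ?_
    · intro s s'
      exact measurable_const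
    · intro T s s'
      split_ifs <;> simp

end Pool.Agent.N680.PX4
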